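import Mathlib

/-!
# MP_01f920_co: `k`-sets with prescribed intersections with the classes of a partition

The conjectured EKR property fails for every number `d ≥ 2` of classes, every `s ≥ 1` and all lower
bounds `κ_1, …, κ_d` one of which is at least `2`: if `2 ≤ κ_i` and `|X_i| < s + 2 κ_i`, then no
star is a maximal intersecting subfamily (a set of the family that meets `X_i` in more than
`|X_i| - κ_i` points meets every member of the family).
-/

set_option autoImplicit false

open Finset

namespace Pool.Agent.Results.MP_01f920_co.StarsNotMaximal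

/-- The family `𝓗`: all `k`-element subsets `F` of `[n]` with `|F ∩ X_i| ≥ κ_i` for all `i`. -/
def fam {n d : ℕ} (X : Fin d → Finset (Fin n)) (κ : Fin d → ℕ) (k : ℕ) :
    Finset (Finset (Fin n)) :=
  univ.filter (fun F => #F = k ∧ ∀ i, κ i ≤ #(F ∩ X i))

/-- `H` has the EKR property: no intersecting subfamily `G` of `H` is larger than all the stars
`H(x) = {F ∈ H : x ∈ F}`. -/
def EKR {n : ℕ} (H : Finset (Finset (Fin n))) : Prop :=
  ∀ G ⊆ H, (∀ A ∈ G, ∀ B ∈ G, (A ∩ B).Nonempty) →
    ∃ x : Fin n, #G ≤ #(H.filter (fun F => x ∈ F))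

/-- `X_1, …, X_d` is a partition of `[n]` (into possibly empty classes). -/
def IsPartition {n d : ℕ} (X : Fin d → Finset (Fin n)) : Prop :=
  (∀ i j, i ≠ j → Disjoint (X i) (X j)) ∧ ∀ x : Fin n, ∃ i, x ∈ X i

/-- a set of the family avoiding `x` with at least `c i` points in each class -/
lemma exists_set {n d : ℕ} (X : Fin d → Finset (Fin n)) (c : Fin d → ℕ) (k : ℕ) (x : Fin n)
    (hc : ∀ i, c i < #(X i)) (hk : ∑ i, c i ≤ k) (hn : k < n) :
    ∃ F : Finset (Fin n), #F = k ∧ x ∉ F ∧ ∀ i, c i ≤ #(F ∩ X i) := by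
  have h1 : ∀ i, ∃ S ⊆ (X i).erase x, #S = c i := by
    intro i
    apply exists_subset_card_eq
    have := pred_card_le_card_erase (s := X i) (a := x)
    have := hc i
    omega
  choose S hS hSc using h1
  have hF0 : #(univ.biUnion S) ≤ k := by
    refine card_biUnion_le.trans ?_
    rw [sum_congr rfl (fun i _ => hSc i)]
    exact hk
  have hsub : univ.biUnion S ⊆ (univ : Finset (Fin n)).erase x := by
    intro y hy
    obtain ⟨i, _, hi⟩ := mem_biUnion.1 hy
    exact mem_erase.2 ⟨(mem_erase.1 (hS i hi)).1, mem_univ _⟩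
  obtain ⟨F, hF1, hF2, hF3⟩ := exists_subsuperset_card_eq hsub hF0 (by
    rw [card_erase_of_mem (mem_univ _), card_univ, Fintype.card_fin]
    omega)
  refine ⟨F, hF3, fun h => (mem_erase.1 (hF2 h)).1 rfl, fun i => ?_⟩
  rw [← hSc i]
  apply card_le_card
  intro y hy
  exact mem_inter.2 ⟨hF1 (mem_biUnion.2 ⟨i, mem_univ _, hy⟩), (mem_erase.1 (hS i hy)).2⟩

/-- The criterion: if `2 ≤ κ_i` and `2 κ_i ≤ |X_i| < s + 2 κ_i` for some `i`, where
`k = s + ∑ κ_j < n`, then the EKR property fails. -/
theorem criterion {n d : ℕ} (X : Fin d → Finset (Fin n)) (κ : Fin d → ℕ) (s : ℕ)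
    (hκ : ∀ i, κ i < #(X i)) (i : Fin d) (hi : 2 ≤ κ i) (hi1 : 2 * κ i ≤ #(X i))
    (hi2 : #(X i) < s + 2 * κ i) (hn : s + ∑ i, κ i < n) :
    ¬ EKR (fam X κ (s + ∑ i, κ i)) := by
  intro hE
  set k := s + ∑ i, κ i with hk
  set H := fam X κ k with hH
  have hne : (univ : Finset (Fin n)).Nonempty := ⟨⟨0, by omega⟩, mem_univ _⟩
  obtain ⟨x, -, hx⟩ := exists_max_image univ (fun x : Fin n => #(H.filter (fun F => x ∈ F))) hne
  -- the additional set
  have hci := hκ i
  obtain ⟨F, hF1, hF2, hF3⟩ := exists_set X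
    (Function.update κ i (#(X i) - κ i + 1)) k x (by
      intro j
      by_cases hj : j = i
      · subst hj
        rw [Function.update_self]
        omega
      · rw [Function.update_of_ne hj]
        exact hκ j) (by
      rw [sum_update_of_mem (mem_univ i)]
      have h2 : ∑ j, κ j = κ i + ∑ j ∈ univ \ {i}, κ j := by
        rw [← sum_update_of_mem (mem_univ i), Function.update_eq_self]
      omega) hn
  have hFH : F ∈ H := by
    rw [hH, fam, mem_filter]
    refine ⟨mem_univ _, hF1, fun j => ?_⟩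
    have h := hF3 j
    by_cases hj : j = i
    · subst hj
      rw [Function.update_self] at h
      omega
    · rw [Function.update_of_ne hj] at h
      exact h
  have hFi : #(X i) - κ i + 1 ≤ #(F ∩ X i) := by
    have h := hF3 i
    rwa [Function.update_self] at h
  -- `F` meets every member of `H`
  have hmeet : ∀ A ∈ H, (F ∩ A).Nonempty := by
    intro A hA
    rw [hH, fam, mem_filter] at hA
    have h1 := hA.2.2 i
    by_contra hcon
    rw [not_nonempty_iff_eq_empty] at hcon
    have hd : Disjoint (F ∩ X i) (A ∩ X i) := by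
      rw [disjoint_left]
      intro y hy hy'
      have : y ∈ F ∩ A := mem_inter.2 ⟨(mem_inter.1 hy).1, (mem_inter.1 hy').1⟩
      rw [hcon] at this
      exact notMem_empty _ this
    have h2 : #(F ∩ X i) + #(A ∩ X i) ≤ #(X i) := by
      rw [← card_union_of_disjoint hd]
      exact card_le_card (union_subset inter_subset_right inter_subset_right)
    omega
  obtain ⟨y, hy⟩ := hE (insert F (H.filter (fun F => x ∈ F))) (by
      intro A hA
      rcases mem_insert.1 hA with hA' | hA'
      · rw [hA']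
        exact hFH
      · exact (mem_filter.1 hA').1) (by
      intro A hA B hB
      rcases mem_insert.1 hA with hA' | hA'
      · rw [hA']
        rcases mem_insert.1 hB with hB' | hB'
        · rw [hB']
          exact hmeet _ hFH
        · exact hmeet _ (mem_filter.1 hB').1
      · rcases mem_insert.1 hB with hB' | hB'
        · rw [hB', inter_comm]
          exact hmeet _ (mem_filter.1 hA').1
        · exact ⟨x, mem_inter.2 ⟨(mem_filter.1 hA').2, (mem_filter.1 hB').2⟩⟩)
  have hcard : #(insert F (H.filter (fun F => x ∈ F))) = #(H.filter (fun F => x ∈ F)) + 1 :=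
    card_insert_of_notMem (fun h => hF2 (mem_filter.1 h).2)
  have := hx y (mem_univ _)
  omega

/-- A partition of `[∑ m_i]` into classes of sizes `m_i`. -/
lemma exists_partition {d : ℕ} (m : Fin d → ℕ) :
    ∃ X : Fin d → Finset (Fin (∑ i, m i)), IsPartition X ∧ ∀ i, #(X i) = m i := by
  let e := finSigmaFinEquiv (n := m)
  have hmem : ∀ (i : Fin d) (x : Fin (∑ i, m i)),
      x ∈ (univ : Finset (Fin (m i))).map ⟨fun a => e ⟨i, a⟩, fun a b hab => by
        have h := e.injective hab
        exact eq_of_heq (Sigma.mk.inj h).2⟩ ↔ (e.symm x).1 = i := by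
    intro i x
    rw [mem_map]
    constructor
    · rintro ⟨a, -, ha⟩
      have h : e ⟨i, a⟩ = x := ha
      rw [← h, Equiv.symm_apply_apply]
    · intro h
      subst h
      exact ⟨(e.symm x).2, mem_univ _, e.apply_symm_apply x⟩
  refine ⟨fun i => (univ : Finset (Fin (m i))).map ⟨fun a => e ⟨i, a⟩, fun a b hab => by
        have h := e.injective hab
        exact eq_of_heq (Sigma.mk.inj h).2⟩, ⟨?_, ?_⟩, ?_⟩
  · intro i j hij
    rw [disjoint_left]
    intro x hx hx'
    exact hij (((hmem i x).1 hx).symm.trans ((hmem j x).1 hx'))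
  · intro x
    exact ⟨(e.symm x).1, (hmem _ x).2 rfl⟩
  · intro i
    exact (card_map _).trans (by rw [card_univ, Fintype.card_fin])

/-- **The conjecture fails for all `d ≥ 2`, `s ≥ 1` and all `κ` with some `κ_i ≥ 2`.**
For `k = s + ∑ κ_i` there are arbitrarily large `n ≥ 2 k` and partitions `X_1, …, X_d` of `[n]` with
`|X_i| > κ_i`, `|X_i| ≥ 2 κ_i` and `|X_i| > s + κ_i` for every `i` (no exceptional index), such that
the family of all `k`-subsets `F` of `[n]` with `|F ∩ X_i| ≥ κ_i` for all `i` does not have the EKR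
property. -/
theorem result (d : ℕ) (hd : 2 ≤ d) (κ : Fin d → ℕ) (hκ : ∃ i, 2 ≤ κ i) (s : ℕ) (hs : 1 ≤ s)
    (N : ℕ) :
    ∃ (n : ℕ) (X : Fin d → Finset (Fin n)), N ≤ n ∧ 2 * (s + ∑ i, κ i) ≤ n ∧ IsPartition X ∧
      (∀ i, κ i < #(X i)) ∧ (∀ i, 2 * κ i ≤ #(X i)) ∧ (∀ i, s + κ i < #(X i)) ∧
      ¬ EKR (fam X κ (s + ∑ i, κ i)) := by
  obtain ⟨i, hi⟩ := hκ
  -- another class
  obtain ⟨j, hj⟩ : ∃ j : Fin d, j ≠ i := by
    by_cases h : i = ⟨0, by omega⟩
    · exact ⟨⟨1, by omega⟩, by rw [h]; simp [Fin.ext_iff]⟩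
    · exact ⟨⟨0, by omega⟩, fun h' => h h'.symm⟩
  set k := s + ∑ i, κ i with hk
  -- the class sizes
  let m : Fin d → ℕ := fun l => if l = i then max (2 * κ i) (s + κ i + 1) else N + 2 * k + 1
  obtain ⟨X, hX, hXc⟩ := exists_partition m
  have hle : ∀ l, κ l ≤ ∑ i, κ i := fun l => single_le_sum (fun _ _ => Nat.zero_le _) (mem_univ l)
  have hmi : m i = max (2 * κ i) (s + κ i + 1) := if_pos rfl
  have hml : ∀ l, l ≠ i → m l = N + 2 * k + 1 := fun l hl => if_neg hl
  have hn : N + 2 * k + 1 ≤ ∑ l, m l := by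
    rw [← hml j hj]
    exact single_le_sum (fun _ _ => Nat.zero_le _) (mem_univ j)
  have h1 : ∀ l, s + κ l < #(X l) := by
    intro l
    rw [hXc l]
    by_cases hl : l = i
    · subst hl
      rw [hmi]
      omega
    · rw [hml l hl]
      have := hle l
      omega
  have h2 : ∀ l, 2 * κ l ≤ #(X l) := by
    intro l
    rw [hXc l]
    by_cases hl : l = i
    · subst hl
      rw [hmi]
      omega
    · rw [hml l hl]
      have := hle l
      omega
  refine ⟨∑ l, m l, X, by omega, by omega, hX, fun l => by have := h1 l; omega, h2, h1, ?_⟩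
  apply criterion X κ s (fun l => by have := h1 l; omega) i hi (h2 i)
  · rw [hXc i, hmi]
    omega
  · omega

end Pool.Agent.Results.MP_01f920_co.StarsNotMaximal
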